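import Pool.Agent.MP_fcd74d_nt.H23.Sieve

set_option autoImplicit false

namespace Pool.Agent.Results.MP_fcd74d_nt.SquarefreeShifts

/-- There are infinitely many `n ≥ 3` such that `n - 2 ^ k` is squarefree for every `k`
(including `k = 0`) with `2 ^ k < n`. -/
theorem result :
    Set.Infinite {n : ℕ | 3 ≤ n ∧ ∀ k : ℕ, 2 ^ k < n → Squarefree (n - 2 ^ k)} := by
  apply Set.infinite_of_not_bddAbove
  rintro ⟨B, hB⟩
  obtain ⟨p, hpB, hp⟩ := Nat.exists_infinite_primes (B + 3)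
  obtain ⟨n, hn3, hdvd, hgood⟩ := Pool.Agent.MP_fcd74d_nt.H23.exists_good (p + 96) (by omega)
  have h1 : p + 96 < 2 ^ (p + 96) := Nat.lt_two_pow_self
  have h2 : p ∣ n := hdvd p hp (by omega) (by omega)
  have h3 : p ≤ n := Nat.le_of_dvd (by omega) h2
  have h4 : n ≤ B := hB ⟨hn3, hgood⟩
  omega

end Pool.Agent.Results.MP_fcd74d_nt.SquarefreeShifts
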